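import Mathlib
import Pool.Agent.Q94.CP

/-! # The universal categorical product monoid is finitely generated as a monoid -/

namespace Pool.Agent.Results.MP_eefcda_al.FinitelyGenerated

open Pool.Agent.Q94.CP

section
variable {M : Type*} [Monoid M] {sig : M → M → M} {p q : M}

/-- action on the first coordinate -/
def lam (sig : M → M → M) (p q a : M) : M := sig (a * p) q

theorem lam_mul (h : IsCP sig p q) (a b : M) :
    lam sig p q (a * b) = lam sig p q a * lam sig p q b := by
  unfold lam
  rw [h.mul, mul_assoc, mul_assoc, h.fst, h.snd]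

theorem lam_one (h : IsCP sig p q) : lam sig p q 1 = 1 := by
  unfold lam
  rw [one_mul, h.eta]

/-- the associator -/
def vv (sig : M → M → M) (p q : M) : M := sig (p * p) (sig (q * p) q)
/-- its inverse -/
def ww (sig : M → M → M) (p q : M) : M := sig (sig p (p * q)) (q * q)

theorem ww_vv (h : IsCP sig p q) : ww sig p q * vv sig p q = 1 := by
  unfold ww vv
  rw [h.mul, h.mul, h.fst, mul_assoc, mul_assoc, h.snd, h.fst, h.snd, h.eta', h.eta]

theorem vv_lam_lam (h : IsCP sig p q) (a : M) :
    vv sig p q * lam sig p q (lam sig p q a) = lam sig p q a * vv sig p q := by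
  unfold vv lam
  simp only [h.mul, mul_assoc, h.fst, h.snd]

theorem lam_lam (h : IsCP sig p q) (a : M) :
    lam sig p q (lam sig p q a) = ww sig p q * lam sig p q a * vv sig p q := by
  rw [mul_assoc, ← vv_lam_lam h, ← mul_assoc, ww_vv h, one_mul]

theorem sig_eq (h : IsCP sig p q) (a b : M) :
    sig a b = lam sig p q a * (sig q p * lam sig p q b * sig q p) * sig 1 1 := by
  unfold lam
  simp only [h.mul, mul_assoc, h.fst, h.snd, mul_one]

/-- the generators -/
def gen0 (sig : M → M → M) (p q : M) : Set M :=
  {p, q, sig q p, sig 1 1, vv sig p q, ww sig p q}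

/-- the generators together with their images under `lam` -/
def gen (sig : M → M → M) (p q : M) : Set M := gen0 sig p q ∪ lam sig p q '' gen0 sig p q

theorem gen_finite (sig : M → M → M) (p q : M) : (gen sig p q).Finite := by
  have h : (gen0 sig p q).Finite := by
    unfold gen0
    simp
  exact h.union (h.image _)

theorem lam_mem (h : IsCP sig p q) {a : M} (ha : a ∈ Submonoid.closure (gen sig p q)) :
    lam sig p q a ∈ Submonoid.closure (gen sig p q) := by
  induction ha using Submonoid.closure_induction with
  | mem x hx =>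
    rcases hx with hx | ⟨y, hy, rfl⟩
    · exact Submonoid.subset_closure (Or.inr ⟨x, hx, rfl⟩)
    · rw [lam_lam h]
      refine mul_mem (mul_mem ?_ ?_) ?_
      · exact Submonoid.subset_closure (Or.inl (by simp [gen0]))
      · exact Submonoid.subset_closure (Or.inr ⟨y, hy, rfl⟩)
      · exact Submonoid.subset_closure (Or.inl (by simp [gen0]))
  | one => rw [lam_one h]; exact one_mem _
  | mul x y _ _ ihx ihy => rw [lam_mul h]; exact mul_mem ihx ihy

theorem sig_mem (h : IsCP sig p q) {a b : M} (ha : a ∈ Submonoid.closure (gen sig p q))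
    (hb : b ∈ Submonoid.closure (gen sig p q)) : sig a b ∈ Submonoid.closure (gen sig p q) := by
  rw [sig_eq h]
  have h1 : sig q p ∈ Submonoid.closure (gen sig p q) :=
    Submonoid.subset_closure (Or.inl (by simp [gen0]))
  have h2 : sig 1 1 ∈ Submonoid.closure (gen sig p q) :=
    Submonoid.subset_closure (Or.inl (by simp [gen0]))
  exact mul_mem (mul_mem (lam_mem h ha) (mul_mem (mul_mem h1 (lam_mem h hb)) h1)) h2

end

/-- **The answer to Q1 is negative.**  There is a CP monoid (in particular a CQP monoid) with at
least two elements which is finitely generated as a monoid; moreover this holds for the universal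
(initial) CP monoid: a universal CP monoid exists, and every universal CP monoid is nontrivial and
finitely generated as a monoid. -/
theorem result :
    (∃ (M : Type) (_ : Monoid M) (sig : M → M → M) (p q : M), Nontrivial M ∧
      (∀ a b, p * sig a b = a) ∧ (∀ a b, q * sig a b = b) ∧
      (∀ a b c, sig a b * c = sig (a * c) (b * c)) ∧ sig p q = 1 ∧
      IsUniversal.{0} sig p q ∧ Monoid.FG M) ∧
    ∀ (V : Type) (_ : Monoid V) (sig : V → V → V) (p q : V), IsCP sig p q →
      IsUniversal.{0} sig p q → Nontrivial V ∧ Monoid.FG V := by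
  have key : ∀ (V : Type) (_ : Monoid V) (sig : V → V → V) (p q : V), IsCP sig p q →
      IsUniversal.{0} sig p q → Nontrivial V ∧ Monoid.FG V := by
    intro V _ sig p q h hU
    refine ⟨hU.nontrivial, ?_⟩
    rw [Monoid.fg_iff]
    refine ⟨gen sig p q, ?_, gen_finite sig p q⟩
    rw [eq_top_iff]
    intro x _
    refine IsUniversal.induction h hU _ ?_ ?_ (fun a ha b hb => sig_mem h ha hb) x
    · exact Submonoid.subset_closure (Or.inl (by simp [gen0]))
    · exact Submonoid.subset_closure (Or.inl (by simp [gen0]))
  refine ⟨?_, key⟩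
  obtain ⟨h1, h2⟩ := key U inferInstance U.sig U.p U.q U.isCP U.isUniversal
  exact ⟨U, inferInstance, U.sig, U.p, U.q, h1, U.isCP.fst, U.isCP.snd, U.isCP.mul, U.isCP.eta,
    U.isUniversal, h2⟩

end Pool.Agent.Results.MP_eefcda_al.FinitelyGenerated
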